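import Mathlib

set_option autoImplicit false
open Finset

namespace H150Few

lemma ncard_eq_sum {W : Type*} [Fintype W] (p : W → Prop) [DecidablePred p] :
    ({w | p w} : Set W).ncard = ∑ w, if p w then 1 else 0 := by
  rw [Set.ncard_eq_toFinset_card']
  simp

/-- three-piece step function summed over `range (a + 1 + t)` -/
lemma sum_step (a t p q s : ℕ) :
    ∑ j ∈ range (a + 1 + t), (if j < a then p else if j = a then q else s) = p * a + q + s * t := by
  rw [Finset.sum_range_add, Finset.sum_range_succ]
  have h1 : ∑ x ∈ range a, (if x < a then p else if x = a then q else s) = p * a := by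
    rw [Finset.sum_congr rfl (g := fun _ => p)]
    · simp [mul_comm]
    · intro x hx
      rw [if_pos (Finset.mem_range.1 hx)]
  have h2 : ∑ x ∈ range t, (if a + 1 + x < a then p else if a + 1 + x = a then q else s) = s * t := by
    rw [Finset.sum_congr rfl (g := fun _ => s)]
    · simp [mul_comm]
    · intro x _
      rw [if_neg (by omega), if_neg (by omega)]
  rw [h1, h2, if_neg (by omega), if_pos rfl]

/-- the adjacency of levels -/
def Theta (R e a b a' b' : ℕ) : Prop :=
  R ≤ a + a' ∨ (a + a' + 1 = R ∧ e ≤ b + b' + 1) ∨ b = b'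

instance (R e a b a' b' : ℕ) : Decidable (Theta R e a b a' b') := by
  unfold Theta; infer_instance

lemma Theta.symm {R e a b a' b' : ℕ} (h : Theta R e a b a' b') : Theta R e a' b' a b := by
  unfold Theta at *
  omega

lemma sum_theta_inner (R e a b a' : ℕ) (hb : b < e) :
    ∑ b' ∈ range e, (if Theta R e a b a' b' then 1 else 0) =
      if R ≤ a + a' then e else if a + a' + 1 = R then b + 1 + (if 2 * b + 1 < e then 1 else 0)
        else 1 := by
  by_cases h1 : R ≤ a + a'
  · rw [if_pos h1, Finset.sum_congr rfl (g := fun _ => 1)]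
    · simp
    · intro x _
      rw [if_pos (show Theta R e a b a' x from Or.inl h1)]
  · rw [if_neg h1]
    by_cases h2 : a + a' + 1 = R
    · rw [if_pos h2, ← Finset.sum_range_reflect]
      obtain ⟨t, rfl⟩ := Nat.exists_eq_add_of_lt hb
      have : ∀ j ∈ range (b + t + 1),
          (if Theta R (b + t + 1) a b a' (b + t + 1 - 1 - j) then 1 else 0) =
          (if j < b + 1 then 1 else 0) + (if j = t ∧ b < t then 1 else 0) := by
        intro j hj
        have hj' := Finset.mem_range.1 hj
        have hiff : Theta R (b + t + 1) a b a' (b + t + 1 - 1 - j) ↔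
            (j < b + 1 ∨ (j = t ∧ b < t)) := by
          unfold Theta; omega
        by_cases hT : Theta R (b + t + 1) a b a' (b + t + 1 - 1 - j)
        · rw [if_pos hT]
          have := hiff.1 hT
          split_ifs <;> omega
        · rw [if_neg hT]
          have := mt hiff.2 hT
          split_ifs <;> omega
      rw [Finset.sum_congr rfl this, Finset.sum_add_distrib]
      have e1 : ∑ j ∈ range (b + t + 1), (if j < b + 1 then 1 else 0) = b + 1 := by
        have := Finset.sum_range_add (fun j => if j < b + 1 then 1 else 0) (b + 1) t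
        rw [show b + t + 1 = b + 1 + t by ring, this, Finset.sum_congr rfl (g := fun _ => 1),
          Finset.sum_congr (s₁ := range t) rfl (g := fun _ => 0)]
        · simp
        · intro x _
          rw [if_neg (by omega)]
        · intro x hx
          rw [if_pos (Finset.mem_range.1 hx)]
      have e2 : ∑ j ∈ range (b + t + 1), (if j = t ∧ b < t then 1 else 0) =
          if 2 * b + 1 < b + t + 1 then 1 else 0 := by
        by_cases hbt : b < t
        · rw [if_pos (by omega)]
          simp only [hbt, and_true]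
          rw [Finset.sum_ite_eq' (range (b + t + 1)) t (fun _ => 1), if_pos]
          rw [Finset.mem_range]; omega
        · rw [if_neg (by omega)]
          simp [hbt]
      rw [e1, e2]
    · rw [if_neg h2]
      have : ∀ j ∈ range e, (if Theta R e a b a' j then 1 else 0) = if b = j then 1 else 0 := by
        intro j _
        have hiff : Theta R e a b a' j ↔ b = j := by
          unfold Theta; omega
        by_cases hT : Theta R e a b a' j
        · rw [if_pos hT, if_pos (hiff.1 hT)]
        · rw [if_neg hT, if_neg (mt hiff.2 hT)]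
      rw [Finset.sum_congr rfl this, Finset.sum_ite_eq, if_pos (Finset.mem_range.2 hb)]

lemma sum_theta (R r a b : ℕ) (ha : a < R) (hb : b < r + 1) :
    ∑ a' ∈ range R, ∑ b' ∈ range (r + 1), (if Theta R (r + 1) a b a' b' then 1 else 0) =
      r * a + b + R + (if 2 * b + 1 < r + 1 then 1 else 0) := by
  rw [Finset.sum_congr rfl (fun a' _ => sum_theta_inner R (r + 1) a b a' hb),
    ← Finset.sum_range_reflect]
  obtain ⟨t, rfl⟩ := Nat.exists_eq_add_of_lt ha
  rw [show a + t + 1 = a + 1 + t by ring]
  have : ∀ j ∈ range (a + 1 + t),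
      (if a + 1 + t ≤ a + (a + 1 + t - 1 - j) then r + 1 else
        if a + (a + 1 + t - 1 - j) + 1 = a + 1 + t then
          b + 1 + (if 2 * b + 1 < r + 1 then 1 else 0) else 1) =
      (if j < a then (r + 1) else if j = a then b + 1 + (if 2 * b + 1 < r + 1 then 1 else 0)
        else 1) := by
    intro j hj
    have hj' := Finset.mem_range.1 hj
    by_cases h1 : j < a
    · rw [if_pos h1, if_pos (by omega)]
    · rw [if_neg h1, if_neg (by omega)]
      by_cases h2 : j = a
      · rw [if_pos h2, if_pos (by omega)]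
      · rw [if_neg h2, if_neg (by omega)]
  rw [Finset.sum_congr rfl this, sum_step]
  ring

lemma sum_theta_fin (R r : ℕ) (a : Fin R) (b : Fin (r + 1)) :
    ∑ a' : Fin R, ∑ b' : Fin (r + 1), (if Theta R (r + 1) a b a' b' then 1 else 0) =
      r * a + b + R + (if 2 * (b : ℕ) + 1 < r + 1 then 1 else 0) := by
  rw [← sum_theta R r a b a.2 b.2]
  rw [Finset.sum_range (fun a' => ∑ b' ∈ range (r + 1),
    (if Theta R (r + 1) a b a' b' then 1 else 0))]
  refine Finset.sum_congr rfl fun a' _ => ?_
  rw [Finset.sum_range (fun b' => (if Theta R (r + 1) a b a' b' then 1 else 0))]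

lemma card_val_lt (S c : ℕ) [NeZero S] (hc : c ≤ S) :
    ∑ j : ZMod S, (if j.val < c then 1 else 0) = c := by
  obtain ⟨s, rfl⟩ : ∃ s, S = s + 1 := ⟨S - 1, by have := NeZero.ne S; omega⟩
  have : ∑ j : ZMod (s + 1), (if j.val < c then 1 else 0) =
      ∑ j : Fin (s + 1), (if (j : ℕ) < c then 1 else 0) := rfl
  rw [this, ← Finset.sum_range (fun j => if j < c then 1 else 0)]
  obtain ⟨t, ht⟩ := Nat.exists_eq_add_of_le hc
  rw [ht, Finset.sum_range_add, Finset.sum_congr rfl (g := fun _ => 1),
    Finset.sum_congr (s₁ := range t) rfl (g := fun _ => 0)]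
  · simp
  · intro x _
    rw [if_neg (by omega)]
  · intro x hx
    rw [if_pos (Finset.mem_range.1 hx)]

lemma sum_shift_left (S c : ℕ) [NeZero S] (hc : c ≤ S) (u : ZMod S) :
    ∑ i : ZMod S, (if (i - u).val < c then 1 else 0) = c := by
  refine Eq.trans ?_ (card_val_lt S c hc)
  exact Fintype.sum_equiv (Equiv.subRight u) _ _ (fun i => rfl)

lemma sum_shift_right (S c : ℕ) [NeZero S] (hc : c ≤ S) (i : ZMod S) :
    ∑ u : ZMod S, (if (i - u).val < c then 1 else 0) = c := by
  refine Eq.trans ?_ (card_val_lt S c hc)
  exact Fintype.sum_equiv (Equiv.subLeft i) _ _ (fun i => rfl)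

lemma sum_shift_fin (k S c : ℕ) [NeZero S] (hc : c ≤ S) (i : ZMod S) :
    ∑ a : Fin (k * S), (if (i - ((a : ℕ) : ZMod S)).val < c then 1 else 0) = k * c := by
  rw [← Fintype.sum_equiv (finProdFinEquiv (m := k) (n := S))
    (fun p => if (i - ((p.2 : ℕ) : ZMod S)).val < c then 1 else 0) _]
  · rw [Fintype.sum_prod_type]
    have : ∀ x : Fin k, ∑ y : Fin S, (if (i - ((y : ℕ) : ZMod S)).val < c then 1 else 0) = c := by
      intro _
      refine Eq.trans ?_ (sum_shift_right S c hc i)
      obtain ⟨s, rfl⟩ : ∃ s, S = s + 1 := ⟨S - 1, by have := NeZero.ne S; omega⟩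
      refine Fintype.sum_equiv (ZMod.finEquiv (s + 1)).toEquiv _ _ (fun y => ?_)
      have : ((y : ℕ) : ZMod (s + 1)) = (ZMod.finEquiv (s + 1)).toEquiv y := by
        exact ZMod.natCast_zmod_val (n := s + 1) y
      rw [this]
    rw [Finset.sum_congr rfl (fun x _ => this x)]
    simp
  · intro p
    have : (((finProdFinEquiv p : Fin (k * S)) : ℕ) : ZMod S) = ((p.2 : ℕ) : ZMod S) := by
      rw [finProdFinEquiv_apply_val]
      push_cast
      simp
    rw [this]

/-- half graph degrees -/
lemma sum_half (m t : ℕ) (ht : t < m) :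
    ∑ j ∈ range m, (if m ≤ t + j + 1 then 1 else 0) = t + 1 := by
  rw [← Finset.sum_range_reflect]
  obtain ⟨u, rfl⟩ := Nat.exists_eq_add_of_lt ht
  rw [show t + u + 1 = (t + 1) + u by ring, Finset.sum_range_add,
    Finset.sum_congr rfl (g := fun _ => 1), Finset.sum_congr (s₁ := range u) rfl (g := fun _ => 0)]
  · simp
  · intro x hx
    have := Finset.mem_range.1 hx
    rw [if_neg (by omega)]
  · intro x hx
    have := Finset.mem_range.1 hx
    rw [if_pos (by omega)]

end H150Few
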