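import Mathlib
import Pool.Agent.H150Few.Count

set_option autoImplicit false
open Finset

namespace H150Few

/-- triangle-free, minimum degree at least one, every degree value attained at most `k` times -/
def Good (k : ℕ) {W : Type} (G : SimpleGraph W) : Prop :=
  G.CliqueFree 3 ∧ (∀ v, 1 ≤ (G.neighborSet v).ncard) ∧
    ∀ d : ℕ, {v | (G.neighborSet v).ncard = d}.ncard ≤ k

/-- number of edges from a vertex of the main part to the fixing part -/
def cc (r g b : ℕ) : ℕ := g + (r + 1) - b + (if 2 * b + 1 < r + 1 then 0 else r + 1)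

lemma cc_le (r g b : ℕ) (hg : g < r) : cc r g b ≤ 3 * (r + 1) := by
  unfold cc; split_ifs <;> omega

lemma cc_mono (r g g' b : ℕ) (h : g ≤ g') : cc r g b ≤ cc r g' b := by
  unfold cc; omega

lemma cc_deg (r g a b R : ℕ) (hb : b < r + 1) :
    (r + 1) * (r * a + b + R + (if 2 * b + 1 < r + 1 then 1 else 0)) + cc r g b =
      r * ((r + 1) * a + b) + g + (r + 1) * (R + 2) := by
  unfold cc
  obtain ⟨t, ht⟩ := Nat.exists_eq_add_of_lt hb
  have hr : r = b + t := by omega
  subst hr
  have : g + (b + t + 1) - b = g + t + 1 := by omega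
  rw [this]
  split_ifs <;> ring

abbrev Vt (X : Type) (k r S : ℕ) : Type :=
  (X × Fin (k * S) × Fin (r + 1)) ⊕ ((X × ZMod S) × Bool)

section

variable {X : Type} (A : SimpleGraph X) (k r S : ℕ) (φ : X ≃ Fin r × Fin k)

def rho (z : X × ZMod S) : ℕ := (((φ z.1).1 : ℕ) * k + (φ z.1).2) * S + z.2.val

def attach (x : X) (a b : ℕ) (z : X × ZMod S) : Prop :=
  x = z.1 ∧ (z.2 - (a : ZMod S)).val < cc r (φ x).1 b

def adjW : Vt X k r S → Vt X k r S → Prop
  | Sum.inl v, Sum.inl w => A.Adj v.1 w.1 ∧ Theta (k * S) (r + 1) v.2.1 v.2.2 w.2.1 w.2.2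
  | Sum.inl v, Sum.inr w => w.2 = false ∧ attach k r S φ v.1 v.2.1 v.2.2 w.1
  | Sum.inr w, Sum.inl v => w.2 = false ∧ attach k r S φ v.1 v.2.1 v.2.2 w.1
  | Sum.inr v, Sum.inr w => v.2 ≠ w.2 ∧ r * k * S ≤ rho k r S φ v.1 + rho k r S φ w.1 + 1

def graphW : SimpleGraph (Vt X k r S) where
  Adj := adjW A k r S φ
  symm := ⟨by
    rintro (v | v) (w | w) h
    · exact ⟨h.1.symm, h.2.symm⟩
    · exact h
    · exact h
    · exact ⟨h.1.symm, by have := h.2; omega⟩⟩
  loopless := ⟨by
    rintro (v | v) h
    · exact A.loopless.irrefl _ h.1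
    · exact h.1 rfl⟩

lemma graphW_cliqueFree (hA : A.CliqueFree 3) : (graphW A k r S φ).CliqueFree 3 := by
  classical
  intro s hs
  rw [SimpleGraph.is3Clique_iff] at hs
  obtain ⟨u, v, w, huv, huw, hvw, -⟩ := hs
  change adjW A k r S φ u v at huv
  change adjW A k r S φ u w at huw
  change adjW A k r S φ v w at hvw
  rcases u with u | u <;> rcases v with v | v <;> rcases w with w | w
  · exact hA {u.1, v.1, w.1} (SimpleGraph.is3Clique_iff.2 ⟨_, _, _, huv.1, huw.1, hvw.1, rfl⟩)
  · have h1 := huw.2.1
    have h2 := hvw.2.1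
    exact A.loopless.irrefl _ (by have := huv.1; rwa [h1, ← h2] at this)
  · have h1 := huv.2.1
    have h2 := hvw.2.1
    exact A.loopless.irrefl _ (by have := huw.1; rwa [h1, ← h2] at this)
  · exact hvw.1 (huv.1.trans huw.1.symm)
  · have h1 := huv.2.1
    have h2 := huw.2.1
    exact A.loopless.irrefl _ (by have := hvw.1; rwa [h1, ← h2] at this)
  · exact huw.1 (huv.1.trans hvw.1.symm)
  · exact huv.1 (huw.1.trans hvw.1.symm)
  · have h1 := huv.1
    have h2 := huw.1
    have h3 := hvw.1
    revert h1 h2 h3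
    cases u.2 <;> cases v.2 <;> cases w.2 <;> simp

variable [Fintype X] [NeZero S]

lemma deg_inl (hreg : ∀ x, (A.neighborSet x).ncard = r + 1) (hS : 3 * (r + 1) ≤ S)
    (x : X) (a : Fin (k * S)) (b : Fin (r + 1)) :
    ((graphW A k r S φ).neighborSet (Sum.inl (x, a, b))).ncard =
      r * ((r + 1) * a + b) + (φ x).1 + (r + 1) * (k * S + 2) := by
  classical
  have h0 : (graphW A k r S φ).neighborSet (Sum.inl (x, a, b)) =
      {w | adjW A k r S φ (Sum.inl (x, a, b)) w} := rfl
  rw [h0, ncard_eq_sum, Fintype.sum_sum_type, ← cc_deg r _ a b (k * S) b.2]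
  congr 1
  · have h1 : ∀ w : X × Fin (k * S) × Fin (r + 1),
        (if adjW A k r S φ (Sum.inl (x, a, b)) (Sum.inl w) then 1 else 0) =
        (if A.Adj x w.1 then 1 else 0) *
          (if Theta (k * S) (r + 1) a b w.2.1 w.2.2 then 1 else 0) := by
      intro w
      by_cases h1 : A.Adj x w.1 <;> by_cases h2 : Theta (k * S) (r + 1) a b w.2.1 w.2.2
      · rw [if_pos ⟨h1, h2⟩, if_pos h1, if_pos h2]
      · rw [if_neg (fun h => h2 h.2), if_neg h2, mul_zero]
      · rw [if_neg (fun h => h1 h.1), if_neg h1, zero_mul]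
      · rw [if_neg (fun h => h1 h.1), if_neg h1, zero_mul]
    rw [Finset.sum_congr rfl (fun w _ => h1 w), Fintype.sum_prod_type]
    have h2 : ∀ y : X, ∑ w : Fin (k * S) × Fin (r + 1), (if A.Adj x y then 1 else 0) *
          (if Theta (k * S) (r + 1) a b w.1 w.2 then 1 else 0) =
          (if A.Adj x y then 1 else 0) *
            (r * a + b + k * S + (if 2 * (b : ℕ) + 1 < r + 1 then 1 else 0)) := by
      intro y
      rw [← Finset.mul_sum, Fintype.sum_prod_type, sum_theta_fin]
    rw [Finset.sum_congr rfl (fun y _ => h2 y), ← Finset.sum_mul]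
    congr 1
    have h3 := hreg x
    rw [show A.neighborSet x = {y | A.Adj x y} from rfl, ncard_eq_sum] at h3
    exact h3
  · rw [Fintype.sum_prod_type]
    have h1 : ∀ z : X × ZMod S, ∑ s : Bool,
        (if adjW A k r S φ (Sum.inl (x, a, b)) (Sum.inr (z, s)) then 1 else 0) =
        (if attach k r S φ x a b z then 1 else 0) := by
      intro z
      rw [Fintype.sum_bool, if_neg (fun h => by have := h.1; simp at this), zero_add]
      by_cases h : attach k r S φ x a b z
      · rw [if_pos h, if_pos ⟨rfl, h⟩]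
      · rw [if_neg h, if_neg (fun h' => h h'.2)]
    rw [Finset.sum_congr rfl (fun z _ => h1 z), Fintype.sum_prod_type]
    have h2 : ∀ y : X, ∑ i : ZMod S, (if attach k r S φ x a b (y, i) then 1 else 0) =
        if x = y then cc r (φ x).1 b else 0 := by
      intro y
      by_cases hxy : x = y
      · rw [if_pos hxy, ← sum_shift_left S (cc r (φ x).1 b)
          ((cc_le r _ b (φ x).1.2).trans hS) ((a : ℕ) : ZMod S)]
        refine Finset.sum_congr rfl fun i _ => ?_
        by_cases h : (i - ((a : ℕ) : ZMod S)).val < cc r (φ x).1 b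
        · rw [if_pos h, if_pos ⟨hxy, h⟩]
        · rw [if_neg h, if_neg (fun h' => h h'.2)]
      · rw [if_neg hxy]
        refine Finset.sum_eq_zero fun i _ => ?_
        rw [if_neg (fun h' => hxy h'.1)]
    rw [Finset.sum_congr rfl (fun y _ => h2 y)]
    simp

/-- the rank function is a bijection onto `range (r * k * S)` -/
lemma sum_rho (f : ℕ → ℕ) :
    ∑ z : X × ZMod S, f (rho k r S φ z) = ∑ j ∈ range (r * k * S), f j := by
  rw [Finset.sum_range]
  obtain ⟨s, rfl⟩ : ∃ s, S = s + 1 := ⟨S - 1, by have := NeZero.ne S; omega⟩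
  refine Fintype.sum_equiv
    (((φ.trans finProdFinEquiv).prodCongr (ZMod.finEquiv (s + 1)).toEquiv.symm).trans
      finProdFinEquiv) _ _ ?_
  intro z
  congr 1
  simp only [rho, Equiv.trans_apply, Equiv.prodCongr_apply, Prod.map, finProdFinEquiv_apply_val]
  have : (((ZMod.finEquiv (s + 1)).toEquiv.symm z.2 : Fin (s + 1)) : ℕ) = z.2.val := rfl
  rw [this]
  ring

lemma rho_lt (z : X × ZMod S) : rho k r S φ z < r * k * S := by
  unfold rho
  have h1 := (φ z.1).1.2
  have h2 := (φ z.1).2.2
  have h3 := ZMod.val_lt z.2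
  have h4 : ((φ z.1).1 : ℕ) * k + (φ z.1).2 + 1 ≤ r * k := by
    calc ((φ z.1).1 : ℕ) * k + (φ z.1).2 + 1 ≤ ((φ z.1).1 : ℕ) * k + k := by omega
      _ = ((φ z.1).1 + 1) * k := by ring
      _ ≤ r * k := Nat.mul_le_mul_right _ h1
  calc (((φ z.1).1 : ℕ) * k + (φ z.1).2) * S + z.2.val
      < (((φ z.1).1 : ℕ) * k + (φ z.1).2) * S + S := by omega
    _ = (((φ z.1).1 : ℕ) * k + (φ z.1).2 + 1) * S := by ring
    _ ≤ r * k * S := Nat.mul_le_mul_right _ h4

lemma rho_inj : Function.Injective (rho k r S φ) := by
  intro z z' h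
  unfold rho at h
  have h3 := ZMod.val_lt z.2
  have h3' := ZMod.val_lt z'.2
  have hS : 0 < S := Nat.pos_of_ne_zero (NeZero.ne S)
  have e1 : ((φ z.1).1 : ℕ) * k + (φ z.1).2 = ((φ z'.1).1 : ℕ) * k + (φ z'.1).2 := by
    have := congrArg (· / S) h
    simp only [Nat.mul_comm _ S, Nat.mul_add_div hS, Nat.div_eq_of_lt h3,
      Nat.div_eq_of_lt h3', add_zero] at this
    exact this
  have e2 : z.2.val = z'.2.val := by rw [e1] at h; omega
  have h2 := (φ z.1).2.2
  have h2' := (φ z'.1).2.2
  have hk : 0 < k := lt_of_le_of_lt (Nat.zero_le _) h2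
  have e3 : ((φ z.1).1 : ℕ) = (φ z'.1).1 := by
    have := congrArg (· / k) e1
    simp only [Nat.mul_comm _ k, Nat.mul_add_div hk, Nat.div_eq_of_lt h2,
      Nat.div_eq_of_lt h2', add_zero] at this
    exact this
  have e4 : ((φ z.1).2 : ℕ) = (φ z'.1).2 := by rw [e3] at e1; omega
  have e5 : φ z.1 = φ z'.1 := Prod.ext (Fin.ext e3) (Fin.ext e4)
  exact Prod.ext (φ.injective e5) (ZMod.val_injective S e2)

lemma rho_fst_mono {z z' : X × ZMod S} (h : rho k r S φ z ≤ rho k r S φ z') :
    ((φ z.1).1 : ℕ) ≤ (φ z'.1).1 := by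
  by_contra hc
  push Not at hc
  have h2' := (φ z'.1).2.2
  have h3' := ZMod.val_lt z'.2
  have : rho k r S φ z' < rho k r S φ z := by
    unfold rho
    calc (((φ z'.1).1 : ℕ) * k + (φ z'.1).2) * S + z'.2.val
        < (((φ z'.1).1 : ℕ) * k + (φ z'.1).2) * S + S := by omega
      _ = (((φ z'.1).1 : ℕ) * k + (φ z'.1).2 + 1) * S := by ring
      _ ≤ (((φ z.1).1 : ℕ) * k + (φ z.1).2) * S := by
          apply Nat.mul_le_mul_right
          calc ((φ z'.1).1 : ℕ) * k + (φ z'.1).2 + 1 ≤ ((φ z'.1).1 : ℕ) * k + k := by omega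
            _ = ((φ z'.1).1 + 1) * k := by ring
            _ ≤ ((φ z.1).1 : ℕ) * k := Nat.mul_le_mul_right _ hc
            _ ≤ _ := Nat.le_add_right _ _
      _ ≤ _ := Nat.le_add_right _ _
  omega

def qq (g : ℕ) : ℕ := ∑ b : Fin (r + 1), k * cc r g b

lemma own_deg (z : X × ZMod S) (s : Bool) :
    ∑ w : (X × ZMod S) × Bool,
      (if s ≠ w.2 ∧ r * k * S ≤ rho k r S φ z + rho k r S φ w.1 + 1 then 1 else 0) =
      rho k r S φ z + 1 := by
  rw [Fintype.sum_prod_type]
  have h1 : ∀ z' : X × ZMod S, ∑ s' : Bool,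
      (if s ≠ s' ∧ r * k * S ≤ rho k r S φ z + rho k r S φ z' + 1 then 1 else 0) =
      (if r * k * S ≤ rho k r S φ z + rho k r S φ z' + 1 then 1 else 0) := by
    intro z'
    rw [Fintype.sum_bool]
    cases s <;> simp
  rw [Finset.sum_congr rfl (fun z' _ => h1 z'),
    sum_rho k r S φ (fun j => if r * k * S ≤ rho k r S φ z + j + 1 then 1 else 0),
    sum_half _ _ (rho_lt k r S φ z)]

lemma deg_inr (hS : 3 * (r + 1) ≤ S) (z : X × ZMod S) (s : Bool) :
    ((graphW A k r S φ).neighborSet (Sum.inr (z, s))).ncard =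
      (if s = false then qq k r (φ z.1).1 else 0) + (rho k r S φ z + 1) := by
  classical
  have h0 : (graphW A k r S φ).neighborSet (Sum.inr (z, s)) =
      {w | adjW A k r S φ (Sum.inr (z, s)) w} := rfl
  rw [h0, ncard_eq_sum, Fintype.sum_sum_type]
  congr 1
  · by_cases hs : s = false
    · rw [if_pos hs, Fintype.sum_prod_type]
      have h1 : ∀ y : X, ∑ w : Fin (k * S) × Fin (r + 1),
          (if adjW A k r S φ (Sum.inr (z, s)) (Sum.inl (y, w)) then 1 else 0) =
          if y = z.1 then qq k r (φ z.1).1 else 0 := by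
        intro y
        by_cases hy : y = z.1
        · rw [if_pos hy, Fintype.sum_prod_type, Finset.sum_comm]
          unfold qq
          refine Finset.sum_congr rfl fun b _ => ?_
          rw [← sum_shift_fin k S (cc r (φ z.1).1 b)
            ((cc_le r _ b (φ z.1).1.2).trans hS) z.2]
          refine Finset.sum_congr rfl fun a _ => ?_
          by_cases h : (z.2 - ((a : ℕ) : ZMod S)).val < cc r (φ z.1).1 b
          · rw [if_pos h, if_pos ⟨hs, hy, by rw [← hy] at h; exact h⟩]
          · rw [if_neg h, if_neg (fun h' => h (by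
              have := h'.2.2
              simp only at this
              rw [hy] at this
              exact this))]
        · rw [if_neg hy]
          refine Finset.sum_eq_zero fun w _ => ?_
          rw [if_neg (fun h' => hy h'.2.1)]
      rw [Finset.sum_congr rfl (fun y _ => h1 y)]
      simp
    · rw [if_neg hs]
      refine Finset.sum_eq_zero fun w _ => ?_
      rw [if_neg (fun h' => hs h'.1)]
  · rw [← own_deg k r S φ z s]
    refine Finset.sum_congr rfl fun w _ => ?_
    by_cases h : s ≠ w.2 ∧ r * k * S ≤ rho k r S φ z + rho k r S φ w.1 + 1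
    · rw [if_pos h, if_pos (show adjW A k r S φ (Sum.inr (z, s)) (Sum.inr w) from h)]
    · rw [if_neg h, if_neg (show ¬ adjW A k r S φ (Sum.inr (z, s)) (Sum.inr w) from h)]

lemma qq_mono {g g' : ℕ} (h : g ≤ g') : qq k r g ≤ qq k r g' :=
  Finset.sum_le_sum fun b _ => Nat.mul_le_mul_left _ (cc_mono r g g' b h)

lemma qq_le {g : ℕ} (hg : g < r) : qq k r g ≤ k * (3 * (r + 1) ^ 2) := by
  unfold qq
  calc ∑ b : Fin (r + 1), k * cc r g b ≤ ∑ _b : Fin (r + 1), k * (3 * (r + 1)) :=
        Finset.sum_le_sum fun b _ => Nat.mul_le_mul_left _ (cc_le r g b hg)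
    _ = k * (3 * (r + 1) ^ 2) := by simp; ring

lemma graphW_good (hA : A.CliqueFree 3) (hreg : ∀ x, (A.neighborSet x).ncard = r + 1)
    (hk : 2 ≤ k) (hS : 3 * (r + 1) ^ 2 ≤ S) : Good k (graphW A k r S φ) := by
  classical
  have hS' : 3 * (r + 1) ≤ S := le_trans (by nlinarith) hS
  refine ⟨graphW_cliqueFree A k r S φ hA, ?_, ?_⟩
  · rintro (⟨x, a, b⟩ | ⟨z, s⟩)
    · rw [deg_inl A k r S φ hreg hS' x a b]
      nlinarith [Nat.zero_le (r * ((r + 1) * (a : ℕ) + b)), Nat.zero_le (((φ x).1 : ℕ)),
        Nat.zero_le (r * (k * S + 2))]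
    · rw [deg_inr A k r S φ hS' z s]
      omega
  · intro d
    by_cases hd : (r + 1) * (k * S + 2) ≤ d
    · -- only vertices of the main part
      have hmain : ∀ v ∈ {v | ((graphW A k r S φ).neighborSet v).ncard = d}, ∃ u, v = Sum.inl u := by
        rintro (u | ⟨z, s⟩) hv
        · exact ⟨u, rfl⟩
        · exfalso
          have hv' : ((graphW A k r S φ).neighborSet (Sum.inr (z, s))).ncard = d := hv
          rw [deg_inr A k r S φ hS' z s] at hv'
          have h1 := rho_lt k r S φ z
          have h2 := qq_le k r (φ z.1).1.2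
          have h3 : k * (3 * (r + 1) ^ 2) ≤ k * S := Nat.mul_le_mul_left _ hS
          have h4 : (r + 1) * (k * S + 2) = r * k * S + k * S + 2 * (r + 1) := by ring
          split_ifs at hv' <;> omega
      let F : Vt X k r S → Fin k := fun v => match v with
        | Sum.inl u => (φ u.1).2
        | Sum.inr _ => ⟨0, by omega⟩
      calc {v | ((graphW A k r S φ).neighborSet v).ncard = d}.ncard
          ≤ (Set.univ : Set (Fin k)).ncard := by
            refine Set.ncard_le_ncard_of_injOn F (fun _ _ => Set.mem_univ _) ?_ Set.finite_univ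
            intro v hv w hw hF
            obtain ⟨⟨x, a, b⟩, rfl⟩ := hmain v hv
            obtain ⟨⟨y, a', b'⟩, rfl⟩ := hmain w hw
            have hv' : ((graphW A k r S φ).neighborSet (Sum.inl (x, a, b))).ncard = d := hv
            have hw' : ((graphW A k r S φ).neighborSet (Sum.inl (y, a', b'))).ncard = d := hw
            rw [deg_inl A k r S φ hreg hS' x a b] at hv'
            rw [deg_inl A k r S φ hreg hS' y a' b'] at hw'
            have hF' : (φ x).2 = (φ y).2 := hF
            have e0 : r * ((r + 1) * (a : ℕ) + b) + (φ x).1 =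
                r * ((r + 1) * (a' : ℕ) + b') + (φ y).1 := by omega
            have hx := (φ x).1.2
            have hy := (φ y).1.2
            have hr : 0 < r := lt_of_le_of_lt (Nat.zero_le _) hx
            have e1 : (r + 1) * (a : ℕ) + b = (r + 1) * (a' : ℕ) + b' := by
              have := congrArg (· / r) e0
              simp only [Nat.mul_add_div hr, Nat.div_eq_of_lt hx, Nat.div_eq_of_lt hy,
                add_zero] at this
              exact this
            have e2 : ((φ x).1 : ℕ) = (φ y).1 := by rw [e1] at e0; omega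
            have e3 : (a : ℕ) = a' := by
              have := congrArg (· / (r + 1)) e1
              simp only [Nat.mul_add_div (Nat.succ_pos r), Nat.div_eq_of_lt b.2,
                Nat.div_eq_of_lt b'.2, add_zero] at this
              exact this
            have e4 : (b : ℕ) = b' := by rw [e3] at e1; omega
            have e5 : φ x = φ y := Prod.ext (Fin.ext e2) hF'
            rw [φ.injective e5, Fin.ext e3, Fin.ext e4]
        _ = k := by rw [Set.ncard_univ]; simp
    · -- only vertices of the fixing part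
      push Not at hd
      have hfix : ∀ v ∈ {v | ((graphW A k r S φ).neighborSet v).ncard = d}, ∃ u, v = Sum.inr u := by
        rintro (⟨x, a, b⟩ | u) hv
        · exfalso
          have hv' : ((graphW A k r S φ).neighborSet (Sum.inl (x, a, b))).ncard = d := hv
          rw [deg_inl A k r S φ hreg hS' x a b] at hv'
          omega
        · exact ⟨u, rfl⟩
      let F : Vt X k r S → Bool := fun v => match v with
        | Sum.inl _ => true
        | Sum.inr u => u.2
      calc {v | ((graphW A k r S φ).neighborSet v).ncard = d}.ncard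
          ≤ (Set.univ : Set Bool).ncard := by
            refine Set.ncard_le_ncard_of_injOn F (fun _ _ => Set.mem_univ _) ?_ Set.finite_univ
            intro v hv w hw hF
            obtain ⟨⟨z, s⟩, rfl⟩ := hfix v hv
            obtain ⟨⟨z', s'⟩, rfl⟩ := hfix w hw
            have hv' : ((graphW A k r S φ).neighborSet (Sum.inr (z, s))).ncard = d := hv
            have hw' : ((graphW A k r S φ).neighborSet (Sum.inr (z', s'))).ncard = d := hw
            rw [deg_inr A k r S φ hS' z s] at hv'
            rw [deg_inr A k r S φ hS' z' s'] at hw'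
            have hF' : s = s' := hF
            subst hF'
            have hrho : rho k r S φ z = rho k r S φ z' := by
              by_cases hs : s = false
              · rw [if_pos hs] at hv' hw'
                rcases le_total (rho k r S φ z) (rho k r S φ z') with h | h
                · have := qq_mono k r (rho_fst_mono k r S φ h)
                  omega
                · have := qq_mono k r (rho_fst_mono k r S φ h)
                  omega
              · rw [if_neg hs] at hv' hw'
                omega
            rw [rho_inj k r S φ hrho]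
        _ ≤ k := by rw [Set.ncard_univ]; simpa using hk

/-- independent sets of the big graph -/
lemma graphW_indep (a0 : ℕ) (hind : ∀ s : Finset X, A.IsIndepSet (s : Set X) → s.card ≤ a0)
    (I : Finset (Vt X k r S)) (hI : (graphW A k r S φ).IsIndepSet (I : Set (Vt X k r S))) :
    I.card ≤ (r + 1) * (k * S) * a0 + 2 * (r * k * S) := by
  classical
  have hsplit : I.card = (I.filter (fun v => v.isLeft)).card + (I.filter (fun v => ¬ v.isLeft)).card :=
    (Finset.card_filter_add_card_filter_not _).symm
  rw [hsplit]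
  refine Nat.add_le_add ?_ ?_
  · -- main part
    let P : Fin (r + 1) → Finset X := fun b =>
      Finset.univ.filter (fun x => ∃ a : Fin (k * S), Sum.inl (x, a, b) ∈ I)
    have hP : ∀ b, (P b).card ≤ a0 := by
      intro b
      refine hind _ ?_
      intro x hx y hy hxy hadj
      obtain ⟨a, ha⟩ := (Finset.mem_filter.1 (Finset.mem_coe.1 hx)).2
      obtain ⟨a', ha'⟩ := (Finset.mem_filter.1 (Finset.mem_coe.1 hy)).2
      refine hI (Finset.mem_coe.2 ha) (Finset.mem_coe.2 ha') ?_ ?_
      · intro h
        have := Sum.inl_injective h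
        exact hxy (congrArg Prod.fst this)
      · exact ⟨hadj, Or.inr (Or.inr rfl)⟩
    let T : Finset (Fin (r + 1) × Fin (k * S) × X) := Finset.univ.filter (fun t => t.2.2 ∈ P t.1)
    have hT : T.card ≤ (r + 1) * (k * S) * a0 := by
      have h1 : T.card = ∑ b : Fin (r + 1), ∑ _a : Fin (k * S), (P b).card := by
        rw [Finset.card_filter, Fintype.sum_prod_type]
        refine Finset.sum_congr rfl fun b _ => ?_
        rw [Fintype.sum_prod_type]
        refine Finset.sum_congr rfl fun a _ => ?_
        rw [← Finset.card_filter]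
        congr 1
        ext x
        simp
      rw [h1]
      calc ∑ b : Fin (r + 1), ∑ _a : Fin (k * S), (P b).card
          ≤ ∑ _b : Fin (r + 1), ∑ _a : Fin (k * S), a0 :=
            Finset.sum_le_sum fun b _ => Finset.sum_le_sum fun _ _ => hP b
        _ = (r + 1) * (k * S) * a0 := by simp; ring
    refine le_trans ?_ hT
    let F : Vt X k r S → Option (Fin (r + 1) × Fin (k * S) × X) := fun v => match v with
      | Sum.inl u => some (u.2.2, u.2.1, u.1)
      | Sum.inr _ => none
    have : (I.filter (fun v => v.isLeft)).card ≤ (T.map Function.Embedding.some).card := by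
      refine Finset.card_le_card_of_injOn F ?_ ?_
      · intro v hv
        obtain ⟨hv1, hv2⟩ := Finset.mem_filter.1 (Finset.mem_coe.1 hv)
        rcases v with ⟨x, a, b⟩ | v
        · refine Finset.mem_coe.2 (Finset.mem_map.2 ⟨(b, a, x), ?_, rfl⟩)
          exact Finset.mem_filter.2 ⟨Finset.mem_univ _,
            Finset.mem_filter.2 ⟨Finset.mem_univ _, a, hv1⟩⟩
        · simp at hv2
      · intro v hv w hw h
        obtain ⟨hv1, hv2⟩ := Finset.mem_filter.1 (Finset.mem_coe.1 hv)
        obtain ⟨hw1, hw2⟩ := Finset.mem_filter.1 (Finset.mem_coe.1 hw)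
        rcases v with ⟨x, a, b⟩ | v
        · rcases w with ⟨x', a', b'⟩ | w
          · simp only [F, Option.some.injEq, Prod.mk.injEq] at h
            rw [h.1, h.2.1, h.2.2]
          · simp at hw2
        · simp at hv2
    simpa using this
  · -- fixing part
    let F : Vt X k r S → (X × ZMod S) × Bool := fun v => match v with
      | Sum.inl u => ((u.1, 0), true)
      | Sum.inr w => w
    calc (I.filter (fun v => ¬ v.isLeft)).card
        ≤ (Finset.univ : Finset ((X × ZMod S) × Bool)).card := by
          refine Finset.card_le_card_of_injOn F (fun _ _ => Finset.mem_coe.2 (Finset.mem_univ _)) ?_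
          intro v hv w hw h
          obtain ⟨hv1, hv2⟩ := Finset.mem_filter.1 (Finset.mem_coe.1 hv)
          obtain ⟨hw1, hw2⟩ := Finset.mem_filter.1 (Finset.mem_coe.1 hw)
          rcases v with v | v
          · simp at hv2
          · rcases w with w | w
            · simp at hw2
            · exact congrArg Sum.inr h
      _ = 2 * (r * k * S) := by
          rw [Finset.card_univ, Fintype.card_prod, Fintype.card_prod, Fintype.card_bool,
            ZMod.card, Fintype.card_congr φ, Fintype.card_prod, Fintype.card_fin, Fintype.card_fin]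
          ring

include φ in
lemma card_Vt : Fintype.card (Vt X k r S) = r * k * S * (k * (r + 1) + 2) := by
  rw [Fintype.card_sum, Fintype.card_prod, Fintype.card_prod, Fintype.card_prod, Fintype.card_prod,
    Fintype.card_bool, ZMod.card, Fintype.card_congr φ, Fintype.card_prod, Fintype.card_fin,
    Fintype.card_fin, Fintype.card_fin, Fintype.card_fin]
  ring

end

end H150Few
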