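import Mathlib
import Pool.Agent.H150Few.Count
import Pool.Agent.H150Few.Graph

set_option autoImplicit false
open Finset

namespace H150Few

section Andr

/-- three-fold blow-up of the Andrasfai graph on `3 c + 2` vertices -/
abbrev AX (c : ℕ) : Type := ZMod (3 * c + 2) × Fin 3

def nearA (c : ℕ) (x : ZMod (3 * c + 2)) : Prop := c + 1 ≤ x.val ∧ x.val ≤ 2 * c + 1

lemma nearA_neg {c : ℕ} {x : ZMod (3 * c + 2)} (h : nearA c x) : nearA c (-x) := by
  unfold nearA at *
  have h0 : x ≠ 0 := by
    rintro rfl
    rw [ZMod.val_zero] at h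
    omega
  haveI : NeZero x := ⟨h0⟩
  rw [ZMod.val_neg_of_ne_zero]
  omega

def andG (c : ℕ) : SimpleGraph (AX c) where
  Adj u v := nearA c (v.1 - u.1)
  symm := ⟨by
    intro u v h
    have := nearA_neg h
    rwa [neg_sub] at this⟩
  loopless := ⟨by
    intro u h
    unfold nearA at h
    rw [sub_self, ZMod.val_zero] at h
    omega⟩

lemma andG_cliqueFree (c : ℕ) : (andG c).CliqueFree 3 := by
  classical
  intro s hs
  rw [SimpleGraph.is3Clique_iff] at hs
  obtain ⟨u, v, w, huv, huw, hvw, -⟩ := hs
  change nearA c (v.1 - u.1) at huv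
  change nearA c (w.1 - u.1) at huw
  change nearA c (w.1 - v.1) at hvw
  have e : w.1 - u.1 = (v.1 - u.1) + (w.1 - v.1) := by ring
  unfold nearA at *
  rw [e, ZMod.val_add] at huw
  have h1 := Nat.mod_lt ((v.1 - u.1).val + (w.1 - v.1).val) (show 0 < 3 * c + 2 by omega)
  have h2 := Nat.div_add_mod ((v.1 - u.1).val + (w.1 - v.1).val) (3 * c + 2)
  have h3 : ((v.1 - u.1).val + (w.1 - v.1).val) / (3 * c + 2) < 2 := by
    rw [Nat.div_lt_iff_lt_mul (by omega)]
    omega
  interval_cases h4 : ((v.1 - u.1).val + (w.1 - v.1).val) / (3 * c + 2)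
  · omega
  · omega

lemma sum_nearA (c : ℕ) : ∑ x : ZMod (3 * c + 2), (if c + 1 ≤ x.val ∧ x.val ≤ 2 * c + 1 then 1
    else 0) = c + 1 := by
  have : ∑ x : ZMod (3 * c + 2), (if c + 1 ≤ x.val ∧ x.val ≤ 2 * c + 1 then 1 else 0) =
      ∑ x : Fin (3 * c + 2), (if c + 1 ≤ (x : ℕ) ∧ (x : ℕ) ≤ 2 * c + 1 then 1 else 0) := rfl
  rw [this, ← Finset.sum_range (fun x => if c + 1 ≤ x ∧ x ≤ 2 * c + 1 then 1 else 0),
    ← Finset.card_filter]
  have hf : (Finset.range (3 * c + 2)).filter (fun x => c + 1 ≤ x ∧ x ≤ 2 * c + 1) =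
      Finset.Icc (c + 1) (2 * c + 1) := by
    ext x
    simp only [Finset.mem_filter, Finset.mem_range, Finset.mem_Icc]
    omega
  rw [hf, Nat.card_Icc]
  omega

lemma andG_degree (c : ℕ) (u : AX c) : ((andG c).neighborSet u).ncard = 3 * c + 3 := by
  classical
  have h0 : (andG c).neighborSet u =
      {w | c + 1 ≤ (w.1 - u.1).val ∧ (w.1 - u.1).val ≤ 2 * c + 1} := rfl
  rw [h0, ncard_eq_sum, Fintype.sum_prod_type]
  have h1 : ∀ x : ZMod (3 * c + 2), ∑ _j : Fin 3,
      (if c + 1 ≤ (x - u.1).val ∧ (x - u.1).val ≤ 2 * c + 1 then 1 else 0) =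
      3 * (if c + 1 ≤ (x - u.1).val ∧ (x - u.1).val ≤ 2 * c + 1 then 1 else 0) := by
    intro x
    simp
  rw [Finset.sum_congr rfl (fun x _ => h1 x), ← Finset.mul_sum]
  have h2 : ∑ x : ZMod (3 * c + 2),
      (if c + 1 ≤ (x - u.1).val ∧ (x - u.1).val ≤ 2 * c + 1 then 1 else 0) = c + 1 := by
    refine Eq.trans ?_ (sum_nearA c)
    exact Fintype.sum_equiv (Equiv.subRight u.1) _ _ (fun x => rfl)
  rw [h2]
  ring

lemma andG_indep (c : ℕ) (I : Finset (AX c)) (hI : (andG c).IsIndepSet (I : Set (AX c))) :
    I.card ≤ 3 * c + 3 := by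
  classical
  set P : Finset (ZMod (3 * c + 2)) := I.image Prod.fst with hP
  have hsub : I ⊆ P ×ˢ (Finset.univ : Finset (Fin 3)) := by
    intro u hu
    exact Finset.mem_product.2 ⟨Finset.mem_image_of_mem _ hu, Finset.mem_univ _⟩
  have hcard : I.card ≤ P.card * 3 := by
    have := Finset.card_le_card hsub
    rwa [Finset.card_product, Finset.card_univ, Fintype.card_fin] at this
  have hPn : ∀ x ∈ P, ∀ y ∈ P, ¬ nearA c (y - x) := by
    intro x hx y hy h
    obtain ⟨u, hu, rfl⟩ := Finset.mem_image.1 hx
    obtain ⟨v, hv, rfl⟩ := Finset.mem_image.1 hy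
    refine hI (Finset.mem_coe.2 hu) (Finset.mem_coe.2 hv) ?_ h
    rintro rfl
    unfold nearA at h
    rw [sub_self, ZMod.val_zero] at h
    omega
  have hPcard : P.card ≤ c + 1 := by
    rcases P.eq_empty_or_nonempty with he | ⟨x, hx⟩
    · rw [he]; simp
    · have hr : ((Finset.range (c + 1)).card) = c + 1 := Finset.card_range _
      rw [← hr]
      refine Finset.card_le_card_of_injOn
        (fun y => if (y - x).val ≤ c then (y - x).val else (y - x).val - (2 * c + 1)) ?_ ?_
      · intro y hy
        have h1 := hPn x hx y (Finset.mem_coe.1 hy)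
        have h2 := ZMod.val_lt (y - x)
        unfold nearA at h1
        refine Finset.mem_coe.2 (Finset.mem_range.2 ?_)
        show (if (y - x).val ≤ c then (y - x).val else (y - x).val - (2 * c + 1)) < c + 1
        split_ifs <;> omega
      · have main : ∀ y ∈ P, ∀ z ∈ P, (y - x).val ≤ c → ¬ (z - x).val ≤ c →
            (y - x).val = (z - x).val - (2 * c + 1) → False := by
          intro y hy z hz h1 h2 h3
          have h4 := hPn x hx z hz
          have h5 := hPn y hy z hz
          have h6 := ZMod.val_lt (z - x)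
          apply h5
          unfold nearA at h4 ⊢
          have h7 : (z - x).val = (y - x).val + (2 * c + 1) := by omega
          have h8 : z - y = ((2 * c + 1 : ℕ) : ZMod (3 * c + 2)) := by
            have e1 : z - x = ((z - x).val : ZMod (3 * c + 2)) :=
              (ZMod.natCast_zmod_val _).symm
            have e2 : y - x = ((y - x).val : ZMod (3 * c + 2)) :=
              (ZMod.natCast_zmod_val _).symm
            rw [h7, Nat.cast_add, ← e2] at e1
            linear_combination e1
          rw [h8, ZMod.val_natCast_of_lt (by omega)]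
          omega
        intro y hy z hz hyz
        have hy' := Finset.mem_coe.1 hy
        have hz' := Finset.mem_coe.1 hz
        have g1 := hPn x hx y hy'
        have g2 := hPn x hx z hz'
        unfold nearA at g1 g2
        have hyz' : (if (y - x).val ≤ c then (y - x).val else (y - x).val - (2 * c + 1)) =
          (if (z - x).val ≤ c then (z - x).val else (z - x).val - (2 * c + 1)) := hyz
        by_cases h1 : (y - x).val ≤ c <;> by_cases h2 : (z - x).val ≤ c
        · rw [if_pos h1, if_pos h2] at hyz'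
          have := ZMod.val_injective _ hyz'
          exact sub_left_injective this
        · rw [if_pos h1, if_neg h2] at hyz'
          exact (main y hy' z hz' h1 h2 hyz').elim
        · rw [if_neg h1, if_pos h2] at hyz'
          exact (main z hz' y hy' h2 h1 hyz'.symm).elim
        · rw [if_neg h1, if_neg h2] at hyz'
          have : (y - x).val = (z - x).val := by omega
          exact sub_left_injective (ZMod.val_injective _ this)
  omega

end Andr

section Half

/-- the half graph -/
def halfG (m : ℕ) : SimpleGraph (Fin m × Bool) where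
  Adj u v := u.2 ≠ v.2 ∧ m ≤ (u.1 : ℕ) + v.1 + 1
  symm := ⟨by
    intro u v h
    exact ⟨h.1.symm, by have := h.2; omega⟩⟩
  loopless := ⟨by
    intro u h
    exact h.1 rfl⟩

lemma halfG_degree (m : ℕ) (u : Fin m × Bool) :
    ((halfG m).neighborSet u).ncard = u.1 + 1 := by
  classical
  have h0 : (halfG m).neighborSet u = {w | u.2 ≠ w.2 ∧ m ≤ (u.1 : ℕ) + w.1 + 1} := rfl
  rw [h0, ncard_eq_sum, Fintype.sum_prod_type]
  have h1 : ∀ j : Fin m, ∑ s : Bool, (if u.2 ≠ s ∧ m ≤ (u.1 : ℕ) + j + 1 then 1 else 0) =
      if m ≤ (u.1 : ℕ) + j + 1 then 1 else 0 := by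
    intro j
    rw [Fintype.sum_bool]
    cases u.2 <;> simp
  rw [Finset.sum_congr rfl (fun j _ => h1 j),
    ← Finset.sum_range (fun j => if m ≤ (u.1 : ℕ) + j + 1 then 1 else 0), sum_half m _ u.1.2]

lemma halfG_good (m : ℕ) : Good 2 (halfG m) := by
  classical
  refine ⟨?_, ?_, ?_⟩
  · intro s hs
    rw [SimpleGraph.is3Clique_iff] at hs
    obtain ⟨u, v, w, huv, huw, hvw, -⟩ := hs
    have h1 : u.2 ≠ v.2 := huv.1
    have h2 : u.2 ≠ w.2 := huw.1
    have h3 : v.2 ≠ w.2 := hvw.1
    revert h1 h2 h3
    cases u.2 <;> cases v.2 <;> cases w.2 <;> simp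
  · intro v
    rw [halfG_degree]
    omega
  · intro d
    calc {v | ((halfG m).neighborSet v).ncard = d}.ncard
        ≤ (Set.univ : Set Bool).ncard := by
          refine Set.ncard_le_ncard_of_injOn Prod.snd (fun _ _ => Set.mem_univ _) ?_
            Set.finite_univ
          intro v hv w hw hF
          have hv' : ((halfG m).neighborSet v).ncard = d := hv
          have hw' : ((halfG m).neighborSet w).ncard = d := hw
          rw [halfG_degree] at hv' hw'
          exact Prod.ext (Fin.ext (by omega)) hF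
      _ = 2 := by rw [Set.ncard_univ]; simp

lemma halfG_indep (m : ℕ) (I : Finset (Fin m × Bool))
    (hI : (halfG m).IsIndepSet (I : Set (Fin m × Bool))) : I.card ≤ m := by
  classical
  have : I.card ≤ (Finset.univ : Finset (Fin m)).card := by
    refine Finset.card_le_card_of_injOn (fun u => if u.2 then Fin.rev u.1 else u.1)
      (fun _ _ => Finset.mem_coe.2 (Finset.mem_univ _)) ?_
    rintro ⟨i, s⟩ hu ⟨j, t⟩ hv h
    cases s <;> cases t
    · simp only [Bool.false_eq_true, if_false] at h
      rw [h]
    · exfalso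
      simp only [Bool.false_eq_true, if_false, if_true] at h
      refine hI hu hv (by simp) ⟨by simp, ?_⟩
      have := congrArg Fin.val h
      simp only [Fin.val_rev] at this
      have h1 := i.2
      have h2 := j.2
      show m ≤ (i : ℕ) + j + 1
      omega
    · exfalso
      simp only [Bool.false_eq_true, if_false, if_true] at h
      refine hI hu hv (by simp) ⟨by simp, ?_⟩
      have := congrArg Fin.val h
      simp only [Fin.val_rev] at this
      have h1 := i.2
      have h2 := j.2
      show m ≤ (i : ℕ) + j + 1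
      omega
    · simp only [if_true] at h
      rw [Fin.rev_injective h]
  simpa using this

end Half

end H150Few
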