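import Mathlib
import Pool.Agent.H150Few.Count

set_option autoImplicit false
open Finset

namespace H150Few

section Lex

variable {m M : ℕ}

/-- `s` precedes `t` in the lexicographic order, first difference at `i` -/
def FirstAt (i : Fin m) (s t : Fin m → Fin M) : Prop := (∀ j < i, s j = t j) ∧ s i < t i

lemma FirstAt.ne {i : Fin m} {s t : Fin m → Fin M} (h : FirstAt i s t) : s ≠ t := by
  rintro rfl
  exact lt_irrefl _ h.2

lemma FirstAt.unique {i l : Fin m} {s t : Fin m → Fin M} (h : FirstAt i s t)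
    (h' : FirstAt l s t) : i = l := by
  rcases lt_trichotomy i l with hl | hl | hl
  · exact absurd (h'.1 i hl) (ne_of_lt h.2)
  · exact hl
  · exact absurd (h.1 l hl) (ne_of_lt h'.2)

lemma FirstAt.asymm {i l : Fin m} {s t : Fin m → Fin M} (h : FirstAt i s t)
    (h' : FirstAt l t s) : False := by
  rcases lt_trichotomy i l with hl | hl | hl
  · exact absurd (h'.1 i hl).symm (ne_of_lt h.2)
  · subst hl
    exact lt_asymm h.2 h'.2
  · exact absurd (h.1 l hl).symm (ne_of_lt h'.2)

lemma FirstAt.trans {i j : Fin m} {s t u : Fin m → Fin M} (h : FirstAt i s t)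
    (h' : FirstAt j t u) : FirstAt (min i j) s u := by
  refine ⟨fun p hp => (h.1 p (lt_of_lt_of_le hp (min_le_left _ _))).trans
    (h'.1 p (lt_of_lt_of_le hp (min_le_right _ _))), ?_⟩
  rcases lt_trichotomy i j with hl | hl | hl
  · rw [min_eq_left hl.le, ← h'.1 i hl]
    exact h.2
  · subst hl
    rw [min_self]
    exact h.2.trans h'.2
  · rw [min_eq_right hl.le, h.1 j hl]
    exact h'.2

lemma exists_firstAt {s t : Fin m → Fin M} (h : s ≠ t) :
    (∃ i, FirstAt i s t) ∨ (∃ i, FirstAt i t s) := by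
  have hne : {i | s i ≠ t i}.Nonempty := by
    by_contra hc
    rw [Set.not_nonempty_iff_eq_empty] at hc
    apply h
    funext i
    by_contra hi
    have : i ∈ {i | s i ≠ t i} := hi
    rw [hc] at this
    exact this
  obtain ⟨i, hi, hmin⟩ := WellFounded.has_min
    (wellFounded_lt : WellFounded ((· < ·) : Fin m → Fin m → Prop)) {i | s i ≠ t i} hne
  have hlt : ∀ j < i, s j = t j := by
    intro j hj
    by_contra hc
    exact hmin j hc hj
  rcases lt_or_gt_of_ne hi with h' | h'
  · exact Or.inl ⟨i, hlt, h'⟩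
  · exact Or.inr ⟨i, fun j hj => (hlt j hj).symm, h'⟩

/-- the label of a coordinate -/
def lab (i : Fin m) : ZMod (m + 1) := ((i : ℕ) + 1 : ℕ)

lemma lab_ne (i : Fin m) : lab i ≠ 0 := by
  unfold lab
  rw [Ne, ZMod.natCast_eq_zero_iff]
  intro h
  have := Nat.le_of_dvd (Nat.succ_pos _) h
  have := i.2
  omega

abbrev LX (m M : ℕ) : Type := ZMod (m + 1) × (Fin m → Fin M)

def ltL (u v : LX m M) : Prop := ∃ i : Fin m, FirstAt i u.2 v.2 ∧ v.1 = u.1 + lab i

def sameL (u v : LX m M) : Prop := u.2 = v.2 ∧ (v.1 = u.1 + 1 ∨ u.1 = v.1 + 1)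

lemma sameL_symm {u v : LX m M} (h : sameL u v) : sameL v u := ⟨h.1.symm, h.2.symm⟩

lemma one_ne (hm : 3 ≤ m) : (1 : ZMod (m + 1)) ≠ 0 := by
  have : ((1 : ℕ) : ZMod (m + 1)) ≠ 0 := by
    rw [Ne, ZMod.natCast_eq_zero_iff]
    intro h
    have := Nat.le_of_dvd Nat.one_pos h
    omega
  simpa using this

lemma two_ne (hm : 3 ≤ m) : (2 : ZMod (m + 1)) ≠ 0 := by
  have : ((2 : ℕ) : ZMod (m + 1)) ≠ 0 := by
    rw [Ne, ZMod.natCast_eq_zero_iff]
    intro h
    have := Nat.le_of_dvd (by norm_num) h
    omega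
  simpa using this

lemma three_ne (hm : 3 ≤ m) : (3 : ZMod (m + 1)) ≠ 0 := by
  have : ((3 : ℕ) : ZMod (m + 1)) ≠ 0 := by
    rw [Ne, ZMod.natCast_eq_zero_iff]
    intro h
    have := Nat.le_of_dvd (by norm_num) h
    omega
  simpa using this

def lexG (hm : 3 ≤ m) (M : ℕ) : SimpleGraph (LX m M) where
  Adj u v := ltL u v ∨ ltL v u ∨ sameL u v
  symm := ⟨by
    rintro u v (h | h | h)
    · exact Or.inr (Or.inl h)
    · exact Or.inl h
    · exact Or.inr (Or.inr (sameL_symm h))⟩
  loopless := ⟨by
    rintro u (⟨i, h, -⟩ | ⟨i, h, -⟩ | ⟨-, h⟩)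
    · exact h.ne rfl
    · exact h.ne rfl
    · rcases h with h | h
      · exact one_ne hm (by simpa using h)
      · exact one_ne hm (by simpa using h)⟩

lemma T1 {u v w : LX m M} (h1 : ltL u v) (h2 : ltL v w) (h3 : ltL u w) : False := by
  obtain ⟨i, hi, ei⟩ := h1
  obtain ⟨j, hj, ej⟩ := h2
  obtain ⟨l, hl, el⟩ := h3
  have := (hi.trans hj).unique hl
  subst this
  rcases le_total i j with h | h
  · rw [min_eq_left h] at el
    rw [ej, ei] at el
    exact lab_ne j (by simpa using el)
  · rw [min_eq_right h] at el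
    rw [ej, ei] at el
    have : u.1 + lab i + lab j = u.1 + lab j + lab i := by ring
    rw [this] at el
    exact lab_ne i (by simpa using el)

lemma T2 {u v w : LX m M} (h1 : ltL u v) (h2 : ltL v w) (h3 : ltL w u) : False := by
  obtain ⟨i, hi, ei⟩ := h1
  obtain ⟨j, hj, ej⟩ := h2
  obtain ⟨l, hl, el⟩ := h3
  exact (hi.trans hj).asymm hl

lemma T3a (hm : 3 ≤ m) {u v w : LX m M} (h1 : sameL u v) (h2 : ltL u w) (h3 : ltL v w) :
    False := by
  obtain ⟨j, hj, ej⟩ := h2
  obtain ⟨l, hl, el⟩ := h3
  rw [← h1.1] at hl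
  have := hj.unique hl
  subst this
  have huv : u.1 = v.1 := by
    rw [ej] at el
    exact add_right_cancel el
  rcases h1.2 with h | h
  · rw [huv] at h
    exact one_ne hm (by simpa using h)
  · rw [huv] at h
    exact one_ne hm (by simpa using h)

lemma T3b (hm : 3 ≤ m) {u v w : LX m M} (h1 : sameL u v) (h2 : ltL w u) (h3 : ltL w v) :
    False := by
  obtain ⟨j, hj, ej⟩ := h2
  obtain ⟨l, hl, el⟩ := h3
  rw [← h1.1] at hl
  have := hj.unique hl
  subst this
  have huv : u.1 = v.1 := by
    rw [ej, el]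
  rcases h1.2 with h | h
  · rw [huv] at h
    exact one_ne hm (by simpa using h)
  · rw [huv] at h
    exact one_ne hm (by simpa using h)

lemma T3c {u v w : LX m M} (h1 : sameL u v) (h2 : ltL u w) (h3 : ltL w v) : False := by
  obtain ⟨j, hj, ej⟩ := h2
  obtain ⟨l, hl, el⟩ := h3
  rw [← h1.1] at hl
  exact hj.asymm hl

lemma T4 {u v w : LX m M} (h1 : sameL u v) (h2 : sameL v w) (h3 : ltL u w) : False := by
  obtain ⟨l, hl, el⟩ := h3
  exact hl.ne (h1.1.trans h2.1)

lemma T5 (hm : 3 ≤ m) {u v w : LX m M} (h1 : sameL u v) (h2 : sameL v w) (h3 : sameL u w) :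
    False := by
  have n1 := one_ne hm
  have n3 := three_ne hm
  rcases h1.2 with a | a <;> rcases h2.2 with b | b <;> rcases h3.2 with c | c
  · apply n1; linear_combination c - a - b
  · apply n3; linear_combination (-1 : ZMod (m + 1)) * a - b - c
  · apply n1; linear_combination a - b - c
  · apply n1; linear_combination b - a - c
  · apply n1; linear_combination b - a - c
  · apply n1; linear_combination a - b - c
  · apply n3; linear_combination (-1 : ZMod (m + 1)) * a - b - c
  · apply n1; linear_combination c - a - b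

lemma lexG_cliqueFree (hm : 3 ≤ m) : (lexG hm M).CliqueFree 3 := by
  classical
  intro s hs
  rw [SimpleGraph.is3Clique_iff] at hs
  obtain ⟨u, v, w, huv, huw, hvw, -⟩ := hs
  change ltL u v ∨ ltL v u ∨ sameL u v at huv
  change ltL u w ∨ ltL w u ∨ sameL u w at huw
  change ltL v w ∨ ltL w v ∨ sameL v w at hvw
  rcases huv with huv | huv | huv <;> rcases huw with huw | huw | huw <;>
    rcases hvw with hvw | hvw | hvw <;> first
    | exact T1 huv huw hvw
    | exact T2 huv huw hvw
    | exact T1 huv hvw huw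
    | exact T2 huv hvw huw
    | exact T1 huw huv hvw
    | exact T2 huw huv hvw
    | exact T1 huw hvw huv
    | exact T2 huw hvw huv
    | exact T1 hvw huv huw
    | exact T2 hvw huv huw
    | exact T1 hvw huw huv
    | exact T2 hvw huw huv
    | exact T3a hm huv huw hvw
    | exact T3b hm huv huw hvw
    | exact T3c huv huw hvw
    | exact T4 huv huw hvw
    | exact T5 hm huv huw hvw
    | exact T5 hm huv huw (sameL_symm hvw)
    | exact T4 huv (sameL_symm huw) hvw
    | exact T5 hm huv (sameL_symm huw) hvw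
    | exact T5 hm huv (sameL_symm huw) (sameL_symm hvw)
    | exact T3a hm (sameL_symm huv) huw hvw
    | exact T3b hm (sameL_symm huv) huw hvw
    | exact T3c (sameL_symm huv) huw hvw
    | exact T4 (sameL_symm huv) huw hvw
    | exact T5 hm (sameL_symm huv) huw hvw
    | exact T5 hm (sameL_symm huv) huw (sameL_symm hvw)
    | exact T4 (sameL_symm huv) (sameL_symm huw) hvw
    | exact T5 hm (sameL_symm huv) (sameL_symm huw) hvw
    | exact T5 hm (sameL_symm huv) (sameL_symm huw) (sameL_symm hvw)
    | exact T3a hm huv hvw huw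
    | exact T3b hm huv hvw huw
    | exact T3c huv hvw huw
    | exact T4 huv hvw huw
    | exact T5 hm huv hvw huw
    | exact T5 hm huv hvw (sameL_symm huw)
    | exact T4 huv (sameL_symm hvw) huw
    | exact T5 hm huv (sameL_symm hvw) huw
    | exact T5 hm huv (sameL_symm hvw) (sameL_symm huw)
    | exact T3a hm (sameL_symm huv) hvw huw
    | exact T3b hm (sameL_symm huv) hvw huw
    | exact T3c (sameL_symm huv) hvw huw
    | exact T4 (sameL_symm huv) hvw huw
    | exact T5 hm (sameL_symm huv) hvw huw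
    | exact T5 hm (sameL_symm huv) hvw (sameL_symm huw)
    | exact T4 (sameL_symm huv) (sameL_symm hvw) huw
    | exact T5 hm (sameL_symm huv) (sameL_symm hvw) huw
    | exact T5 hm (sameL_symm huv) (sameL_symm hvw) (sameL_symm huw)
    | exact T3a hm huw huv hvw
    | exact T3b hm huw huv hvw
    | exact T3c huw huv hvw
    | exact T4 huw huv hvw
    | exact T5 hm huw huv hvw
    | exact T5 hm huw huv (sameL_symm hvw)
    | exact T4 huw (sameL_symm huv) hvw
    | exact T5 hm huw (sameL_symm huv) hvw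
    | exact T5 hm huw (sameL_symm huv) (sameL_symm hvw)
    | exact T3a hm (sameL_symm huw) huv hvw
    | exact T3b hm (sameL_symm huw) huv hvw
    | exact T3c (sameL_symm huw) huv hvw
    | exact T4 (sameL_symm huw) huv hvw
    | exact T5 hm (sameL_symm huw) huv hvw
    | exact T5 hm (sameL_symm huw) huv (sameL_symm hvw)
    | exact T4 (sameL_symm huw) (sameL_symm huv) hvw
    | exact T5 hm (sameL_symm huw) (sameL_symm huv) hvw
    | exact T5 hm (sameL_symm huw) (sameL_symm huv) (sameL_symm hvw)
    | exact T3a hm huw hvw huv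
    | exact T3b hm huw hvw huv
    | exact T3c huw hvw huv
    | exact T4 huw hvw huv
    | exact T5 hm huw hvw huv
    | exact T5 hm huw hvw (sameL_symm huv)
    | exact T4 huw (sameL_symm hvw) huv
    | exact T5 hm huw (sameL_symm hvw) huv
    | exact T5 hm huw (sameL_symm hvw) (sameL_symm huv)
    | exact T3a hm (sameL_symm huw) hvw huv
    | exact T3b hm (sameL_symm huw) hvw huv
    | exact T3c (sameL_symm huw) hvw huv
    | exact T4 (sameL_symm huw) hvw huv
    | exact T5 hm (sameL_symm huw) hvw huv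
    | exact T5 hm (sameL_symm huw) hvw (sameL_symm huv)
    | exact T4 (sameL_symm huw) (sameL_symm hvw) huv
    | exact T5 hm (sameL_symm huw) (sameL_symm hvw) huv
    | exact T5 hm (sameL_symm huw) (sameL_symm hvw) (sameL_symm huv)
    | exact T3a hm hvw huv huw
    | exact T3b hm hvw huv huw
    | exact T3c hvw huv huw
    | exact T4 hvw huv huw
    | exact T5 hm hvw huv huw
    | exact T5 hm hvw huv (sameL_symm huw)
    | exact T4 hvw (sameL_symm huv) huw
    | exact T5 hm hvw (sameL_symm huv) huw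
    | exact T5 hm hvw (sameL_symm huv) (sameL_symm huw)
    | exact T3a hm (sameL_symm hvw) huv huw
    | exact T3b hm (sameL_symm hvw) huv huw
    | exact T3c (sameL_symm hvw) huv huw
    | exact T4 (sameL_symm hvw) huv huw
    | exact T5 hm (sameL_symm hvw) huv huw
    | exact T5 hm (sameL_symm hvw) huv (sameL_symm huw)
    | exact T4 (sameL_symm hvw) (sameL_symm huv) huw
    | exact T5 hm (sameL_symm hvw) (sameL_symm huv) huw
    | exact T5 hm (sameL_symm hvw) (sameL_symm huv) (sameL_symm huw)
    | exact T3a hm hvw huw huv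
    | exact T3b hm hvw huw huv
    | exact T3c hvw huw huv
    | exact T4 hvw huw huv
    | exact T5 hm hvw huw huv
    | exact T5 hm hvw huw (sameL_symm huv)
    | exact T4 hvw (sameL_symm huw) huv
    | exact T5 hm hvw (sameL_symm huw) huv
    | exact T5 hm hvw (sameL_symm huw) (sameL_symm huv)
    | exact T3a hm (sameL_symm hvw) huw huv
    | exact T3b hm (sameL_symm hvw) huw huv
    | exact T3c (sameL_symm hvw) huw huv
    | exact T4 (sameL_symm hvw) huw huv
    | exact T5 hm (sameL_symm hvw) huw huv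
    | exact T5 hm (sameL_symm hvw) huw (sameL_symm huv)
    | exact T4 (sameL_symm hvw) (sameL_symm huw) huv
    | exact T5 hm (sameL_symm hvw) (sameL_symm huw) huv
    | exact T5 hm (sameL_symm hvw) (sameL_symm huw) (sameL_symm huv)

/-- for different second components there is exactly one neighbour class -/
lemma adj_iff_of_ne (hm : 3 ≤ m) (al : ZMod (m + 1)) {s t : Fin m → Fin M} (h : s ≠ t) :
    ∃ be0 : ZMod (m + 1), ∀ be, (lexG hm M).Adj (al, s) (be, t) ↔ be = be0 := by
  rcases exists_firstAt h with ⟨i, hi⟩ | ⟨i, hi⟩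
  · refine ⟨al + lab i, fun be => ⟨?_, ?_⟩⟩
    · rintro (⟨j, hj, ej⟩ | ⟨j, hj, ej⟩ | ⟨h', -⟩)
      · have := hi.unique hj
        subst this
        exact ej
      · exact (hi.asymm hj).elim
      · exact absurd h' h
    · intro hbe
      exact Or.inl ⟨i, hi, hbe⟩
  · refine ⟨al - lab i, fun be => ⟨?_, ?_⟩⟩
    · rintro (⟨j, hj, ej⟩ | ⟨j, hj, ej⟩ | ⟨h', -⟩)
      · exact (hi.asymm hj).elim
      · have := hi.unique hj
        subst this
        exact (sub_eq_of_eq_add ej).symm
      · exact absurd h' h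
    · intro hbe
      exact Or.inr (Or.inl ⟨i, hi, by rw [hbe]; simp⟩)

lemma adj_iff_same (hm : 3 ≤ m) (al be : ZMod (m + 1)) (s : Fin m → Fin M) :
    (lexG hm M).Adj (al, s) (be, s) ↔ be = al + 1 ∨ be = al - 1 := by
  constructor
  · rintro (⟨j, hj, -⟩ | ⟨j, hj, -⟩ | ⟨-, h | h⟩)
    · exact (hj.ne rfl).elim
    · exact (hj.ne rfl).elim
    · exact Or.inl h
    · exact Or.inr (sub_eq_of_eq_add h).symm
  · rintro (h | h)
    · exact Or.inr (Or.inr ⟨rfl, Or.inl h⟩)
    · exact Or.inr (Or.inr ⟨rfl, Or.inr (by rw [h]; simp)⟩)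

lemma lexG_degree (hm : 3 ≤ m) (u : LX m M) : ((lexG hm M).neighborSet u).ncard = M ^ m + 1 := by
  classical
  obtain ⟨al, s⟩ := u
  have h0 : (lexG hm M).neighborSet (al, s) = {w | (lexG hm M).Adj (al, s) w} := rfl
  rw [h0, ncard_eq_sum, Fintype.sum_prod_type_right]
  have h1 : ∀ t : Fin m → Fin M, ∑ be : ZMod (m + 1),
      (if (lexG hm M).Adj (al, s) (be, t) then 1 else 0) = 1 + if s = t then 1 else 0 := by
    intro t
    by_cases hst : s = t
    · subst hst
      rw [if_pos rfl]
      have h2 : ∀ be : ZMod (m + 1), (if (lexG hm M).Adj (al, s) (be, s) then 1 else 0) =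
          (if be = al + 1 then 1 else 0) + (if be = al - 1 then 1 else 0) := by
        intro be
        by_cases hA : (lexG hm M).Adj (al, s) (be, s)
        · rw [if_pos hA]
          rcases (adj_iff_same hm al be s).1 hA with h | h
          · rw [if_pos h, if_neg]
            intro h'
            rw [h] at h'
            apply two_ne hm
            linear_combination h'
          · rw [if_pos h, if_neg]
            intro h'
            rw [h] at h'
            apply two_ne hm
            linear_combination (-1 : ZMod (m + 1)) * h'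
        · rw [if_neg hA, if_neg (fun h => hA ((adj_iff_same hm al be s).2 (Or.inl h))),
            if_neg (fun h => hA ((adj_iff_same hm al be s).2 (Or.inr h)))]
      rw [Finset.sum_congr rfl (fun be _ => h2 be), Finset.sum_add_distrib]
      simp
    · rw [if_neg hst]
      obtain ⟨be0, h2⟩ := adj_iff_of_ne hm al hst
      have h3 : ∀ be : ZMod (m + 1), (if (lexG hm M).Adj (al, s) (be, t) then 1 else 0) =
          if be = be0 then 1 else 0 := by
        intro be
        by_cases hA : (lexG hm M).Adj (al, s) (be, t)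
        · rw [if_pos hA, if_pos ((h2 be).1 hA)]
        · rw [if_neg hA, if_neg (mt (h2 be).2 hA)]
      rw [Finset.sum_congr rfl (fun be _ => h3 be)]
      simp
  rw [Finset.sum_congr rfl (fun t _ => h1 t), Finset.sum_add_distrib]
  simp

/-- the overlap of two different fibres of an independent set is small -/
lemma overlap (hm : 3 ≤ m) (I : Finset (LX m M)) (hI : (lexG hm M).IsIndepSet (I : Set (LX m M)))
    (al be : ZMod (m + 1)) (hab : al ≠ be) :
    (Finset.univ.filter (fun t : Fin m → Fin M => (al, t) ∈ I ∧ (be, t) ∈ I)).card * M ≤ M ^ m := by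
  classical
  have hval : (be - al).val < m + 1 := ZMod.val_lt _
  have hne : (be - al).val ≠ 0 := by
    intro h
    rw [ZMod.val_eq_zero] at h
    exact hab (sub_eq_zero.1 h).symm
  let i : Fin m := ⟨(be - al).val - 1, by omega⟩
  have hlab : lab i = be - al := by
    unfold lab
    have : ((i : ℕ) + 1 : ℕ) = (be - al).val := by
      show (be - al).val - 1 + 1 = _
      omega
    rw [this]
    exact ZMod.natCast_zmod_val _
  have hlab' : be = al + lab i := by rw [hlab]; ring
  set O := Finset.univ.filter (fun t : Fin m → Fin M => (al, t) ∈ I ∧ (be, t) ∈ I) with hO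
  have key : ∀ t ∈ O, ∀ t' ∈ O, (∀ j, j ≠ i → t j = t' j) → ¬ t i < t' i := by
    intro t ht t' ht' hj hlt
    have h1 := (Finset.mem_filter.1 ht).2.1
    have h2 := (Finset.mem_filter.1 ht').2.2
    refine hI (Finset.mem_coe.2 h1) (Finset.mem_coe.2 h2) ?_ ?_
    · intro h
      exact hab (congrArg Prod.fst h)
    · exact Or.inl ⟨i, ⟨fun j hj' => hj j (ne_of_lt hj'), hlt⟩, hlab'⟩
  have hinj : ∀ t ∈ O, ∀ t' ∈ O, (∀ j, j ≠ i → t j = t' j) → t = t' := by
    intro t ht t' ht' hj
    funext j
    by_cases hji : j = i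
    · subst hji
      have a1 := key t ht t' ht' hj
      have a2 := key t' ht' t ht (fun j h => (hj j h).symm)
      exact le_antisymm (not_lt.1 a2) (not_lt.1 a1)
    · exact hj j hji
  have h3 : (O ×ˢ (Finset.univ : Finset (Fin M))).card ≤
      (Finset.univ : Finset (Fin m → Fin M)).card := by
    refine Finset.card_le_card_of_injOn (fun p => Function.update p.1 i p.2)
      (fun _ _ => Finset.mem_coe.2 (Finset.mem_univ _)) ?_
    intro p hp q hq hpq
    have hp' := (Finset.mem_product.1 (Finset.mem_coe.1 hp)).1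
    have hq' := (Finset.mem_product.1 (Finset.mem_coe.1 hq)).1
    have e1 : p.2 = q.2 := by
      have := congrFun hpq i
      simpa using this
    have e2 : p.1 = q.1 := by
      refine hinj _ hp' _ hq' (fun j hj => ?_)
      have := congrFun hpq j
      simpa [Function.update_of_ne hj] using this
    exact Prod.ext e2 e1
  rw [Finset.card_product, Finset.card_univ, Finset.card_univ] at h3
  simpa using h3

lemma lexG_indep (hm : 3 ≤ m) (I : Finset (LX m M))
    (hI : (lexG hm M).IsIndepSet (I : Set (LX m M))) :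
    I.card * M ≤ M ^ m * (M + (m + 1) ^ 2) := by
  classical
  let f : (Fin m → Fin M) → ZMod (m + 1) → ℕ := fun t al => if (al, t) ∈ I then 1 else 0
  have h1 : I.card = ∑ t : Fin m → Fin M, ∑ al : ZMod (m + 1), f t al := by
    rw [← Fintype.sum_prod_type_right (f := fun p : ZMod (m + 1) × (Fin m → Fin M) => f p.2 p.1)]
    simp only [f]
    rw [Finset.sum_boole]
    simp
  have h2 : ∀ t : Fin m → Fin M, ∑ al : ZMod (m + 1), f t al ≤
      1 + ∑ p : ZMod (m + 1) × ZMod (m + 1), if p.1 ≠ p.2 ∧ (p.1, t) ∈ I ∧ (p.2, t) ∈ I then 1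
        else 0 := by
    intro t
    by_cases he : ∃ a0, (a0, t) ∈ I
    · obtain ⟨a0, ha0⟩ := he
      rw [Fintype.sum_prod_type]
      have h3 : ∑ al : ZMod (m + 1), f t al ≤
          1 + ∑ al : ZMod (m + 1), if a0 ≠ al ∧ (a0, t) ∈ I ∧ (al, t) ∈ I then 1 else 0 := by
        rw [← Finset.add_sum_erase _ _ (Finset.mem_univ a0)]
        refine Nat.add_le_add ?_ ?_
        · simp only [f]; split_ifs <;> omega
        · refine le_trans ?_ (Finset.sum_le_sum_of_subset (Finset.erase_subset a0 _))
          refine Finset.sum_le_sum fun al hal => ?_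
          have hne := Finset.ne_of_mem_erase hal
          simp only [f]
          by_cases h : (al, t) ∈ I
          · rw [if_pos h, if_pos ⟨hne.symm, ha0, h⟩]
          · rw [if_neg h]; exact Nat.zero_le _
      refine h3.trans (Nat.add_le_add_left ?_ _)
      exact Finset.single_le_sum (f := fun a : ZMod (m + 1) => ∑ al : ZMod (m + 1),
        if a ≠ al ∧ (a, t) ∈ I ∧ (al, t) ∈ I then 1 else 0)
        (fun _ _ => Nat.zero_le _) (Finset.mem_univ a0)
    · have : ∑ al : ZMod (m + 1), f t al = 0 := by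
        refine Finset.sum_eq_zero fun al _ => ?_
        simp only [f]
        rw [if_neg (fun h => he ⟨al, h⟩)]
      rw [this]
      exact Nat.zero_le _
  have h4 : I.card ≤ M ^ m + ∑ p : ZMod (m + 1) × ZMod (m + 1),
      ∑ t : Fin m → Fin M, if p.1 ≠ p.2 ∧ (p.1, t) ∈ I ∧ (p.2, t) ∈ I then 1 else 0 := by
    rw [h1]
    refine (Finset.sum_le_sum fun t _ => h2 t).trans ?_
    rw [Finset.sum_add_distrib, Finset.sum_comm]
    simp
  have h5 : ∀ p : ZMod (m + 1) × ZMod (m + 1),
      (∑ t : Fin m → Fin M, if p.1 ≠ p.2 ∧ (p.1, t) ∈ I ∧ (p.2, t) ∈ I then 1 else 0) * M ≤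
        M ^ m := by
    intro p
    by_cases hp : p.1 ≠ p.2
    · have := overlap hm I hI p.1 p.2 hp
      rw [Finset.card_filter] at this
      refine le_trans (Nat.mul_le_mul_right _ (Finset.sum_le_sum fun t _ => ?_)) this
      by_cases h : (p.1, t) ∈ I ∧ (p.2, t) ∈ I
      · rw [if_pos ⟨hp, h⟩, if_pos h]
      · rw [if_neg (fun h' => h h'.2)]; exact Nat.zero_le _
    · have : (∑ t : Fin m → Fin M, if p.1 ≠ p.2 ∧ (p.1, t) ∈ I ∧ (p.2, t) ∈ I then 1 else 0) =
          0 := Finset.sum_eq_zero fun t _ => by rw [if_neg (fun h => hp h.1)]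
      rw [this, zero_mul]
      exact Nat.zero_le _
  calc I.card * M ≤ (M ^ m + ∑ p : ZMod (m + 1) × ZMod (m + 1),
        ∑ t : Fin m → Fin M, if p.1 ≠ p.2 ∧ (p.1, t) ∈ I ∧ (p.2, t) ∈ I then 1 else 0) * M :=
        Nat.mul_le_mul_right _ h4
    _ = M ^ m * M + ∑ p : ZMod (m + 1) × ZMod (m + 1),
        (∑ t : Fin m → Fin M, if p.1 ≠ p.2 ∧ (p.1, t) ∈ I ∧ (p.2, t) ∈ I then 1 else 0) * M := by
        rw [add_mul, Finset.sum_mul]
    _ ≤ M ^ m * M + ∑ _p : ZMod (m + 1) × ZMod (m + 1), M ^ m :=
        Nat.add_le_add_left (Finset.sum_le_sum fun p _ => h5 p) _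
    _ = M ^ m * (M + (m + 1) ^ 2) := by
        simp only [Finset.sum_const, Finset.card_univ, Fintype.card_prod, ZMod.card, smul_eq_mul]
        ring

end Lex

end H150Few
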